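import Mathlib
import Pool.Agent.R29.FREx37B

/-!
# Proper fractional revival with eigenvalue classes not closed under conjugates (MP_d93d44_co, Q1)
-/

set_option autoImplicit false

open Matrix Finset

namespace Pool.Agent.Results.MP_d93d44_co.NotConjugateClosed

open Pool.Agent.R29.FR Pool.Agent.R29.FRG Pool.Agent.R29.FRM Pool.Agent.R29.FREx

/-- The transition matrix `U(t) = exp (i t A)` of the graph `X`. -/
noncomputable def transition {V : Type} [Fintype V] [DecidableEq V] (X : SimpleGraph V)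
    [DecidableRel X.Adj] (t : ℝ) : Matrix V V ℂ :=
  NormedSpace.exp (((t : ℂ) * Complex.I) • X.adjMatrix ℂ)

/-- Proper fractional revival on `{a, b}` at the time `t`. -/
def ProperFractionalRevival {V : Type} [Fintype V] [DecidableEq V] (X : SimpleGraph V)
    [DecidableRel X.Adj] (a b : V) (t : ℝ) : Prop :=
  (∀ c, c ≠ a → c ≠ b → transition X t a c = 0 ∧ transition X t b c = 0) ∧
    transition X t a b ≠ 0

/-- The entry `(E_θ)_{a, b}`, where `E_θ` is the orthogonal projection onto the eigenspace of the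
adjacency matrix of `X` for the number `θ`. -/
noncomputable def projEntry {V : Type} [Fintype V] [DecidableEq V] (X : SimpleGraph V)
    [DecidableRel X.Adj] (θ : ℝ) (a b : V) : ℝ :=
  ((Module.End.eigenspace (Matrix.toEuclideanLin (X.adjMatrix ℝ)) θ).starProjection
    (EuclideanSpace.single b 1)) a

/-- The class `C⁺`: the numbers `θ` with `(E_θ)_{a, b} > 0`. -/
def Cplus {V : Type} [Fintype V] [DecidableEq V] (X : SimpleGraph V) [DecidableRel X.Adj]
    (a b : V) : Set ℝ := {θ | 0 < projEntry X θ a b}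

/-- The class `C⁻`: the numbers `θ` with `(E_θ)_{a, b} < 0`. -/
def Cminus {V : Type} [Fintype V] [DecidableEq V] (X : SimpleGraph V) [DecidableRel X.Adj]
    (a b : V) : Set ℝ := {θ | projEntry X θ a b < 0}

/-- `S` is closed under algebraic conjugates. -/
def ClosedUnderConjugates (S : Set ℝ) : Prop :=
  ∀ θ ∈ S, ∀ z : ℂ, Polynomial.aeval z (minpoly ℚ θ) = 0 → ∃ η ∈ S, (η : ℂ) = z

theorem poly_root (x : ℝ) (hx : x ^ 2 = 37) :
    Polynomial.aeval (36 + 4 * x) (Polynomial.X ^ 2 + (Polynomial.C (-72 : ℚ) * Polynomial.X + Polynomial.C (704 : ℚ)))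
      = (0 : ℝ) := by
  simp only [map_add, map_mul, Polynomial.aeval_X, Polynomial.aeval_C, map_pow]
  have h1 : (algebraMap ℚ ℝ) (-72) = -72 := by norm_num
  have h2 : (algebraMap ℚ ℝ) 704 = 704 := by norm_num
  rw [h1, h2]
  linear_combination 16 * hx

theorem minpoly_eq (x : ℝ) (hx : x ^ 2 = 37) (hirr : Irrational x) :
    minpoly ℚ (36 + 4 * x)
      = Polynomial.X ^ 2 + (Polynomial.C (-72 : ℚ) * Polynomial.X + Polynomial.C (704 : ℚ)) := by
  have hm : (Polynomial.X ^ 2 + (Polynomial.C (-72 : ℚ) * Polynomial.X + Polynomial.C (704 : ℚ))).Monic := by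
    apply Polynomial.monic_X_pow_add
    refine lt_of_le_of_lt (Polynomial.degree_linear_le) ?_
    norm_num
  have hint : IsIntegral ℚ (36 + 4 * x) := ⟨_, hm, by
    have := poly_root x hx
    rwa [Polynomial.aeval_def] at this⟩
  symm
  apply Polynomial.eq_of_monic_of_dvd_of_natDegree_le (minpoly.monic hint) hm
    (minpoly.dvd ℚ _ (poly_root x hx))
  have hdeg : (Polynomial.X ^ 2 + (Polynomial.C (-72 : ℚ) * Polynomial.X + Polynomial.C (704 : ℚ))).natDegree = 2 := by
    compute_degree!
  rw [hdeg]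
  rw [minpoly.two_le_natDegree_iff hint]
  rintro ⟨q, hq⟩
  apply hirr
  refine ⟨(q - 36) / 4, ?_⟩
  have hq' : (q : ℝ) = 36 + 4 * x := hq
  push_cast
  rw [hq']; ring

theorem root37 (x y : ℝ) (hx : x ^ 2 = 37) (hy : y ^ 2 = 37) (hirr : Irrational x) :
    Polynomial.aeval ((36 + 4 * y : ℝ) : ℂ) (minpoly ℚ (36 + 4 * x)) = 0 := by
  rw [minpoly_eq x hx hirr]
  have h := poly_root y hy
  have h2 := congrArg (fun r : ℝ => (r : ℂ)) h
  simp only [map_add, map_mul, Polynomial.aeval_X, Polynomial.aeval_C, map_pow] at h2 ⊢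
  have h1 : (algebraMap ℚ ℝ) (-72) = -72 := by norm_num
  have h3 : (algebraMap ℚ ℝ) 704 = 704 := by norm_num
  have h1' : (algebraMap ℚ ℂ) (-72) = -72 := by norm_num
  have h3' : (algebraMap ℚ ℂ) 704 = 704 := by norm_num
  rw [h1, h3] at h2
  rw [h1', h3']
  push_cast at h2 ⊢
  exact h2

theorem irr37 : Irrational (√37 : ℝ) := by
  have : Nat.Prime 37 := by norm_num
  exact_mod_cast this.irrational_sqrt

theorem main : ∃ (V : Type) (_ : Fintype V) (_ : DecidableEq V) (X : SimpleGraph V)
    (_ : DecidableRel X.Adj) (a b : V), a ≠ b ∧ (∃ t : ℝ, 0 < t ∧ ProperFractionalRevival X a b t) ∧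
      ¬ ClosedUnderConjugates (Cplus X a b) ∧ ¬ ClosedUnderConjugates (Cminus X a b) := by
  refine ⟨d37.V, inferInstance, inferInstance, d37.graph, inferInstance, va, vb, by simp,
    ⟨t37, t37_pos, ?_, ?_⟩, ?_, ?_⟩
  · -- fractional revival
    obtain ⟨α, β, hα, hβ, h⟩ := revival37
    have hs : ∀ u v, transition d37.graph t37 u v = transition d37.graph t37 v u := by
      intro u v
      have := U_symm (d37.graph.adjMatrix ℂ) (d37.graph.transpose_adjMatrix) t37
      exact (congrFun (congrFun this v) u)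
    have hp := U37 r1 hr1
    have hm := U37 r2 hr2
    have hcc : (r1 : ℂ) - r2 ≠ 0 := by
      rw [sub_ne_zero]; exact_mod_cast r12
    have hb : (Pi.single vb (1 : ℂ) : d37.V → ℂ)
        = (1 / ((r1 : ℂ) - r2)) • cx (w37 r1) - (1 / ((r1 : ℂ) - r2)) • cx (w37 r2) := by
      ext v
      have h1 := congrFun basis_b v
      have h2 := congrArg (fun r : ℝ => (r : ℂ)) h1
      simp only [Pi.add_apply, Pi.smul_apply, smul_eq_mul, cx, Pi.sub_apply] at h2 ⊢
      have h3 : ((Pi.single vb (1 : ℝ) : d37.V → ℝ) v : ℂ) = (Pi.single vb (1 : ℂ) : d37.V → ℂ) v := by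
        simp only [Pi.single_apply]; split_ifs <;> simp
      rw [← h3, h2]
      push_cast
      ring
    intro c hca hcb
    have hz : ∀ x : ℝ, cx (w37 x) c = 0 := by
      intro x
      have : w37 x c = 0 := by
        rw [w37_eq]
        simp [hca, hcb]
      simp [cx, this]
    constructor
    · rw [hs]
      have h1 := congrFun h c
      rw [Matrix.mulVec_single_one] at h1
      simp only [Pi.add_apply, Pi.smul_apply, smul_eq_mul, Matrix.col_apply] at h1
      rw [Pi.single_eq_of_ne hca, Pi.single_eq_of_ne hcb] at h1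
      change U (d37.graph.adjMatrix ℂ) t37 c va = 0
      simpa using h1
    · rw [hs]
      have h1 : (U (d37.graph.adjMatrix ℂ) t37 *ᵥ (Pi.single vb 1)) c = 0 := by
        rw [hb, Matrix.mulVec_sub, Matrix.mulVec_smul, Matrix.mulVec_smul, hp, hm]
        simp only [Pi.sub_apply, Pi.smul_apply, smul_eq_mul, hz]
        ring
      rw [Matrix.mulVec_single_one] at h1
      exact h1
  · obtain ⟨α, β, hα, hβ, h⟩ := revival37
    have h1 := congrFun h vb
    rw [Matrix.mulVec_single_one] at h1
    simp only [Pi.add_apply, Pi.smul_apply, smul_eq_mul, Matrix.col_apply] at h1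
    rw [Pi.single_eq_same, Pi.single_eq_of_ne (by simp)] at h1
    have hs : transition d37.graph t37 va vb = transition d37.graph t37 vb va := by
      have := U_symm (d37.graph.adjMatrix ℂ) (d37.graph.transpose_adjMatrix) t37
      exact (congrFun (congrFun this vb) va)
    rw [hs]
    change U (d37.graph.adjMatrix ℂ) t37 vb va ≠ 0
    rw [h1]
    simpa using hβ
  · intro hcl
    have h1 : 40 + 24 * r1 ∈ Cplus d37.graph va vb := entry_p1
    obtain ⟨η, hη, hη'⟩ := hcl _ h1 ((36 + 4 * (-√37) : ℝ) : ℂ) (by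
      rw [p1_eq]
      exact root37 (√37) (-√37) sq37 (by rw [neg_sq, sq37]) irr37)
    have h2 : η = 40 + 24 * r2 := by
      rw [p2_eq]
      have : η = 36 + 4 * (-√37) := by exact_mod_cast hη'
      rw [this]; ring
    rw [h2] at hη
    have h3 : (0 : ℝ) < projEntry d37.graph (40 + 24 * r2) va vb := hη
    have h4 : projEntry d37.graph (40 + 24 * r2) va vb < 0 := entry_p2
    linarith
  · intro hcl
    have h1 : 40 + 24 * r2 ∈ Cminus d37.graph va vb := entry_p2
    obtain ⟨η, hη, hη'⟩ := hcl _ h1 ((36 + 4 * (√37) : ℝ) : ℂ) (by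
      have : (40 + 24 * r2 : ℝ) = 36 + 4 * (-√37) := by rw [p2_eq]; ring
      rw [this]
      exact root37 (-√37) (√37) (by rw [neg_sq, sq37]) sq37 irr37.neg)
    have h2 : η = 40 + 24 * r1 := by
      rw [p1_eq]
      exact_mod_cast hη'
    rw [h2] at hη
    have h3 : projEntry d37.graph (40 + 24 * r1) va vb < (0 : ℝ) := hη
    have h4 : 0 < projEntry d37.graph (40 + 24 * r1) va vb := entry_p1
    linarith

/-- There are a finite simple graph `X` and two vertices `a, b` such that proper fractional revival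
occurs on `{a, b}`, and neither of the classes `C⁺`, `C⁻` is closed under algebraic conjugates. -/
theorem result : ∃ (V : Type) (_ : Fintype V) (_ : DecidableEq V) (X : SimpleGraph V)
    (_ : DecidableRel X.Adj) (a b : V), a ≠ b ∧ (∃ t : ℝ, 0 < t ∧ ProperFractionalRevival X a b t) ∧
      ¬ ClosedUnderConjugates (Cplus X a b) ∧ ¬ ClosedUnderConjugates (Cminus X a b) := main

end Pool.Agent.Results.MP_d93d44_co.NotConjugateClosed
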